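import Pool.Agent.Y160.EN.StmA

/-!
# The conditions for `g = (x ^ M - ρ₁) ⋯ (x ^ M - ρₙ) u(x ^ M)`
-/

set_option autoImplicit false
set_option linter.all false

open Polynomial

namespace Pool.Agent.Y833.EN

open Pool.Agent.Y160.FT
open Pool.Agent.Y160.T4
open Pool.Agent.Y160.EN (St_cond ManyD)
open Pool.Agent.Y160.T3 (split_list triv_of_irr)
open Pool.Agent.Y691.FT2 (exists_exps triv_of_cong)

section grp

variable {V : Type} [CommGroup V] {p : ℕ}

/-- Exponents prime to `p` may be dropped. -/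
theorem drop (hV : ∀ x : V, x ^ p = 1) {M : ℕ} (hM : p.Coprime M) {x y : V}
    (h : x ^ M = y ^ M) : x = y := by
  have h1 : (x * y⁻¹) ^ M = 1 := by rw [mul_pow, inv_pow, h, mul_inv_cancel]
  exact mul_inv_eq_one.1 (one_of_cop (hV _) hM h1)

theorem kappa_one (hV : ∀ x : V, x ^ p = 1) {n d : ℕ} {κ : V} {x : Fin n → V}
    {y : Fin n → Fin n → V} (hy : ∀ i j, y i j = y j i) {e : Fin n → ℕ} {f : ℕ}
    (hcop : p.Coprime (n + d))
    (h1 : ∀ i, κ * ((∏ j ∈ Finset.univ.erase i, y i j ^ e j) * x i ^ f) =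
      ((∏ j ∈ Finset.univ.erase i, y i j) * x i) ^ e i)
    (h2 : κ ^ d * ∏ j, x j ^ e j = (∏ j, x j) ^ f) : κ = 1 := by
  have h3 : κ ^ n * ((∏ i, ∏ j ∈ Finset.univ.erase i, y i j ^ e j) * ∏ i, x i ^ f) =
      (∏ i, ∏ j ∈ Finset.univ.erase i, y i j ^ e i) * ∏ i, x i ^ e i := by
    have := Finset.prod_congr rfl (fun i (_ : i ∈ (Finset.univ : Finset (Fin n))) => h1 i)
    simp only [Finset.prod_mul_distrib, Finset.prod_const, Finset.card_univ, Fintype.card_fin,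
      mul_pow, ← Finset.prod_pow] at this
    exact this
  have h4 : ∏ i, ∏ j ∈ Finset.univ.erase i, y i j ^ e j =
      ∏ i, ∏ j ∈ Finset.univ.erase i, y i j ^ e i := by
    rw [Finset.prod_comm' (t' := Finset.univ) (s' := fun j => Finset.univ.erase j)
      (by intro i j; simp [eq_comm])]
    exact Finset.prod_congr rfl fun i _ => Finset.prod_congr rfl fun j _ => by rw [hy]
  have h5 : κ ^ (n + d) * (((∏ i, ∏ j ∈ Finset.univ.erase i, y i j ^ e i) * ∏ i, x i ^ f) *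
      ∏ i, x i ^ e i) = 1 * (((∏ i, ∏ j ∈ Finset.univ.erase i, y i j ^ e i) * ∏ i, x i ^ f) *
      ∏ i, x i ^ e i) := by
    rw [h4] at h3
    calc _ = (κ ^ n * ((∏ i, ∏ j ∈ Finset.univ.erase i, y i j ^ e i) * ∏ i, x i ^ f)) *
          (κ ^ d * ∏ i, x i ^ e i) := by
            rw [pow_add]; simp only [mul_comm, mul_left_comm, mul_assoc]
      _ = _ := by
            rw [h3, h2, one_mul, ← Finset.prod_pow]
            simp only [mul_comm, mul_left_comm, mul_assoc]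
  exact one_of_cop (hV κ) hcop (mul_right_cancel h5)

theorem exp_cong (hp : p.Prime) (hV : ∀ x : V, x ^ p = 1) {n : ℕ} {x : V} {y : Fin n → V}
    {e : Fin n → ℕ} {f : ℕ} (i : Fin n)
    (h1 : (∏ j ∈ Finset.univ.erase i, y j ^ e j) * x ^ f =
      ((∏ j ∈ Finset.univ.erase i, y j) * x) ^ e i)
    (hne : ∀ ε : Fin n → ℕ, x * ∏ j ∈ Finset.univ.erase i, y j ^ ε j ≠ 1) :
    e i ≡ f [MOD p] := by
  by_contra hcon
  haveI : Fact p.Prime := ⟨hp⟩
  have hz : ((e i : ZMod p) - (f : ZMod p)) ≠ 0 := by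
    intro h0
    exact hcon ((ZMod.natCast_eq_natCast_iff _ _ _).1 (sub_eq_zero.1 h0))
  obtain ⟨δ, hδ⟩ : ∃ δ : ℕ, δ * e i ≡ δ * f + 1 [MOD p] := by
    refine ⟨(((e i : ZMod p) - (f : ZMod p))⁻¹).val, ?_⟩
    rw [← ZMod.natCast_eq_natCast_iff]
    push_cast
    rw [ZMod.natCast_zmod_val]
    have h2 := inv_mul_cancel₀ hz
    linear_combination h2
  have hx : x ^ (δ * e i) = x ^ (δ * f + 1) :=
    pow_eq_pow_iff_modEq.2 (hδ.of_dvd (orderOf_dvd_of_pow_eq_one (hV x)))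
  set P := ∏ j ∈ Finset.univ.erase i, y j ^ e j with hP
  set Q := ∏ j ∈ Finset.univ.erase i, y j with hQ
  have h3 : P ^ δ = Q ^ (δ * e i) * x := by
    have h4 : (P * x ^ f) ^ δ = ((Q * x) ^ e i) ^ δ := by rw [h1]
    have h5 : P ^ δ * x ^ (δ * f) = Q ^ (δ * e i) * x * x ^ (δ * f) := by
      calc P ^ δ * x ^ (δ * f) = (P * x ^ f) ^ δ := by
            rw [mul_pow, ← pow_mul x f δ, mul_comm f δ]
        _ = ((Q * x) ^ e i) ^ δ := h4
        _ = Q ^ (δ * e i) * x ^ (δ * e i) := by rw [← pow_mul, mul_comm (e i), mul_pow]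
        _ = Q ^ (δ * e i) * x * x ^ (δ * f) := by rw [hx, pow_succ]; simp only [mul_comm, mul_left_comm, mul_assoc]
    exact mul_right_cancel h5
  refine hne (fun j => δ * e i + e j * (δ * (p - 1))) ?_
  have h6 : ∏ j ∈ Finset.univ.erase i, y j ^ (δ * e i + e j * (δ * (p - 1))) =
      Q ^ (δ * e i) * P ^ (δ * (p - 1)) := by
    simp only [pow_add, Finset.prod_mul_distrib, pow_mul, Finset.prod_pow, hP, hQ]
  rw [h6, ← mul_assoc, mul_comm x, ← h3, pow_mul, ← pow_succ', Nat.sub_add_cancel hp.one_lt.le, hV]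

end grp

section nrm

variable {E : Type} [Field E]

theorem nn_prod {f : E[X]} (hf : f.Monic) {ι : Type} (s : Finset ι) (A : ι → E[X]) :
    Nn f (∏ i ∈ s, A i) = ∏ i ∈ s, Nn f (A i) := by
  classical
  induction s using Finset.induction_on with
  | empty =>
    rw [Finset.prod_empty, Finset.prod_empty, ← C_1, nn_C hf, one_pow]
  | insert a s ha ih => rw [Finset.prod_insert ha, Finset.prod_insert ha, nn_mul hf, ih]

theorem cl_prod (p : ℕ) {ι : Type} (s : Finset ι) (x : ι → E) (hx : ∀ i ∈ s, x i ≠ 0) :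
    cl p (∏ i ∈ s, x i) = ∏ i ∈ s, cl p (x i) := by
  classical
  induction s using Finset.induction_on with
  | empty => rw [Finset.prod_empty, Finset.prod_empty, cl_one]
  | insert a s ha ih =>
    rw [Finset.prod_insert ha, Finset.prod_insert ha, cl_mul p (hx a (Finset.mem_insert_self _ _))
      (Finset.prod_ne_zero_iff.2 fun i hi => hx i (Finset.mem_insert_of_mem hi)),
      ih fun i hi => hx i (Finset.mem_insert_of_mem hi)]

/-- The local condition at a prime factor. -/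
theorem local_gen {P Q Q₁ : E[X]} (hP : Irreducible P) (hPQ : ¬ P ∣ Q) (hPQ₁ : ¬ P ∣ Q₁)
    {ℓ e₁ e' : ℕ} {c a : E} (hc : c ≠ 0) (ha : a ≠ 0) {w : E[X]} (hw : ¬ P ∣ w)
    (h : P ^ (e' + 1) ∣ C c * (C a * (P ^ e₁ * Q₁)) - (P * Q) ^ e' * w ^ ℓ) :
    P ∣ C (c * a) * Q₁ - Q ^ e₁ * w ^ ℓ := by
  have hprime : Prime P := hP.prime
  have hQn : ∀ n, ¬ P ∣ Q ^ n := fun n hd => hPQ (hprime.dvd_of_dvd_pow hd)
  have hcad : ¬ P ∣ C (c * a) * Q₁ := by
    intro hd
    rcases hprime.dvd_or_dvd hd with h1 | h1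
    · exact hprime.not_unit (isUnit_of_dvd_unit h1
        (isUnit_C.2 (isUnit_iff_ne_zero.2 (mul_ne_zero hc ha))))
    · exact hPQ₁ h1
  have hwd : ∀ n, ¬ P ∣ Q ^ n * w ^ ℓ := by
    intro n hd
    rcases hprime.dvd_or_dvd hd with h1 | h1
    · exact hQn _ h1
    · exact hw (hprime.dvd_of_dvd_pow h1)
  have hPn : ∀ n, P ^ n ≠ 0 := fun n => pow_ne_zero _ hprime.ne_zero
  have heq : e₁ = e' := by
    rcases lt_trichotomy e₁ e' with hlt | heq | hgt
    · exfalso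
      have h1 : P ^ (e₁ + 1) ∣ C c * (C a * (P ^ e₁ * Q₁)) - (P * Q) ^ e' * w ^ ℓ :=
        (pow_dvd_pow _ (by omega)).trans h
      have h2 : P ^ (e₁ + 1) ∣ (P * Q) ^ e' * w ^ ℓ := by
        rw [mul_pow, mul_assoc]
        exact Dvd.dvd.mul_right (pow_dvd_pow _ (by omega)) _
      have h3 := dvd_add h1 h2
      rw [sub_add_cancel] at h3
      have h4 : P ^ e₁ * P ∣ P ^ e₁ * (C (c * a) * Q₁) := by
        rw [← pow_succ]
        have h5 : P ^ e₁ * (C (c * a) * Q₁) = C c * (C a * (P ^ e₁ * Q₁)) := by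
          rw [C_mul]; ring
        rw [h5]; exact h3
      exact hcad ((mul_dvd_mul_iff_left (hPn _)).1 h4)
    · exact heq
    · exfalso
      have h2 : P ^ (e' + 1) ∣ C c * (C a * (P ^ e₁ * Q₁)) := by
        have h5 : C c * (C a * (P ^ e₁ * Q₁)) = P ^ e₁ * (C (c * a) * Q₁) := by
          rw [C_mul]; ring
        rw [h5]
        exact Dvd.dvd.mul_right (pow_dvd_pow _ (by omega)) _
      have h3 := dvd_sub h2 h
      rw [sub_sub_cancel] at h3
      have h4 : P ^ e' * P ∣ P ^ e' * (Q ^ e' * w ^ ℓ) := by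
        rw [← pow_succ]
        have h5 : P ^ e' * (Q ^ e' * w ^ ℓ) = (P * Q) ^ e' * w ^ ℓ := by rw [mul_pow]; ring
        rw [h5]; exact h3
      exact hwd _ ((mul_dvd_mul_iff_left (hPn _)).1 h4)
  subst heq
  have h4 : P ^ e₁ * P ∣ P ^ e₁ * (C (c * a) * Q₁ - Q ^ e₁ * w ^ ℓ) := by
    rw [← pow_succ]
    have h5 : P ^ e₁ * (C (c * a) * Q₁ - Q ^ e₁ * w ^ ℓ) =
      C c * (C a * (P ^ e₁ * Q₁)) - (P * Q) ^ e₁ * w ^ ℓ := by rw [mul_pow, C_mul]; ring
    rw [h5]; exact h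
  exact (mul_dvd_mul_iff_left (hPn _)).1 h4

end nrm

section data

variable {E : Type} [Field E]

theorem exps {n : ℕ} {G : Fin n → E[X]} {U : E[X]} (hG : ∀ i, Irreducible (G i))
    (hU : Irreducible U) {A : E[X]} (h : VV ((∏ i, G i) * U) A) :
    ∃ (a : E) (e : Fin n → ℕ) (f : ℕ), a ≠ 0 ∧ A = C a * ((∏ i, G i ^ e i) * U ^ f) := by
  obtain ⟨N, hN⟩ := h
  obtain ⟨a, e, ha, he⟩ := exists_exps (Fin.cons U G : Fin (n + 1) → E[X]) (fun i => by
    refine Fin.cases ?_ ?_ i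
    · exact hU
    · exact hG) A N (by
      rw [Fin.prod_univ_succ]
      simp only [Fin.cons_zero, Fin.cons_succ]
      rwa [mul_comm U])
  refine ⟨a, fun i => e i.succ, e 0, ha, ?_⟩
  rw [he, Fin.prod_univ_succ]
  simp only [Fin.cons_zero, Fin.cons_succ]
  rw [mul_comm (U ^ _)]

theorem triv_exps {n : ℕ} {G : Fin n → E[X]} {U : E[X]} {a : E} (ha : a ≠ 0) {ℓ : ℕ}
    {e : Fin n → ℕ} {f : ℕ} (h : ∀ i, e i ≡ f [MOD ℓ]) :
    Triv ℓ ((∏ i, G i) * U) (C a * ((∏ i, G i ^ e i) * U ^ f)) := by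
  have h0 : ∀ i : Fin (n + 1), (Fin.cons f e : Fin (n + 1) → ℕ) i ≡ f [MOD ℓ] := by
    intro i
    refine Fin.cases ?_ ?_ i
    · exact Nat.ModEq.refl _
    · exact h
  obtain ⟨c, j, w, hc, hcj⟩ := triv_of_cong (Fin.cons U G : Fin (n + 1) → E[X])
    (Fin.cons f e : Fin (n + 1) → ℕ) a ha ℓ (fun i j => (h0 i).trans (h0 j).symm)
  rw [Fin.prod_univ_succ, Fin.prod_univ_succ] at hcj
  simp only [Fin.cons_zero, Fin.cons_succ] at hcj
  refine ⟨c, j, w, hc, ?_⟩
  rw [mul_comm (∏ i, G i), ← hcj, mul_comm (U ^ f)]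

theorem redei_gen {p M n d : ℕ} (hp : p.Prime) (hM : p.Coprime M) (hcop : p.Coprime (n + d))
    {G : Fin n → E[X]} {U : E[X]} (gm : ∀ i, (G i).Monic) (um : U.Monic)
    (gi : ∀ i, Irreducible (G i)) (ui : Irreducible U) (gd : ∀ i, (G i).natDegree = M)
    (ud : U.natDegree = d * M) (hGG : ∀ i j, i ≠ j → ¬ G i ∣ G j) (hGU : ∀ i, ¬ G i ∣ U)
    (hUG : ∀ i, ¬ U ∣ G i) {x : Fin n → E} {y : Fin n → Fin n → E} (hx : ∀ i, x i ≠ 0)
    (hy : ∀ i j, i ≠ j → y i j ≠ 0) (hneg : cl p (-1 : E) = 1)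
    (gu : ∀ i, Nn (G i) U = x i ^ M) (gg : ∀ i j, Nn (G i) (G j) = y i j ^ M)
    (ys : ∀ i j, y i j = - y j i)
    (tR : ∀ (i : Fin n) (ε : Fin n → ℕ) (z : E), z ^ p ≠ x i *
      ∏ j ∈ Finset.univ.erase i, y i j ^ ε j)
    {e : Fin n → ℕ} {f : ℕ} {c a : E} (hc : c ≠ 0) (ha : a ≠ 0)
    (h : ∀ P : E[X], P.Monic → Irreducible P → P ∣ (∏ i, G i) * U →
      ∃ (e' : ℕ) (w : E[X]), ¬ P ∣ w ∧ P ^ (e' + 1) ∣
        C c * (C a * ((∏ i, G i ^ e i) * U ^ f)) - ((∏ i, G i) * U) ^ e' * w ^ p) :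
    ∀ i, e i ≡ f [MOD p] := by
  have hca : c * a ≠ 0 := mul_ne_zero hc ha
  have hV : ∀ v : VG E p, v ^ p = 1 := VG_pow p
  have hys : ∀ i j, cl p (y i j) = cl p (y j i) := by
    intro i j
    rcases eq_or_ne i j with h0 | h0
    · rw [h0]
    · have := cl_sign hneg 1 (hy j i h0.symm)
      rw [pow_one, neg_one_mul, ← ys i j] at this
      exact this
  have hyp : ∀ (i : Fin n) (ε : Fin n → ℕ), ∏ j ∈ Finset.univ.erase i, y i j ^ ε j ≠ 0 :=
    fun i ε => Finset.prod_ne_zero_iff.2 fun j hj =>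
      pow_ne_zero _ (hy i j (Finset.ne_of_mem_erase hj).symm)
  have hyp1 : ∀ i : Fin n, ∏ j ∈ Finset.univ.erase i, y i j ≠ 0 :=
    fun i => Finset.prod_ne_zero_iff.2 fun j hj => hy i j (Finset.ne_of_mem_erase hj).symm
  have clyp : ∀ (i : Fin n) (ε : Fin n → ℕ), cl p (∏ j ∈ Finset.univ.erase i, y i j ^ ε j) =
      ∏ j ∈ Finset.univ.erase i, cl p (y i j) ^ ε j := by
    intro i ε
    rw [cl_prod p _ _ fun j hj => pow_ne_zero _ (hy i j (Finset.ne_of_mem_erase hj).symm)]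
    exact Finset.prod_congr rfl fun j hj => cl_pow p (hy i j (Finset.ne_of_mem_erase hj).symm) _
  have clyp1 : ∀ i : Fin n, cl p (∏ j ∈ Finset.univ.erase i, y i j) =
      ∏ j ∈ Finset.univ.erase i, cl p (y i j) :=
    fun i => cl_prod p _ _ fun j hj => hy i j (Finset.ne_of_mem_erase hj).symm
  have h1 : ∀ i, cl p (c * a) * ((∏ j ∈ Finset.univ.erase i, cl p (y i j) ^ e j) *
      cl p (x i) ^ f) = ((∏ j ∈ Finset.univ.erase i, cl p (y i j)) * cl p (x i)) ^ e i := by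
    intro i
    obtain ⟨e', w, hw, hd⟩ := h (G i) (gm i) (gi i)
      (Dvd.dvd.mul_right (Finset.dvd_prod_of_mem _ (Finset.mem_univ i)) _)
    rw [← Finset.mul_prod_erase _ _ (Finset.mem_univ i),
      ← Finset.mul_prod_erase _ (fun i => G i) (Finset.mem_univ i), mul_assoc (G i ^ e i),
      mul_assoc (G i)] at hd
    have hprime := (gi i).prime
    have hQ : ¬ G i ∣ (∏ j ∈ Finset.univ.erase i, G j) * U := by
      intro hd
      rcases hprime.dvd_or_dvd hd with h0 | h0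
      · obtain ⟨j, hj, hjd⟩ := (hprime.dvd_finset_prod_iff _).1 h0
        exact hGG i j (Finset.ne_of_mem_erase hj).symm hjd
      · exact hGU i h0
    have hQ₁ : ¬ G i ∣ (∏ j ∈ Finset.univ.erase i, G j ^ e j) * U ^ f := by
      intro hd
      rcases hprime.dvd_or_dvd hd with h0 | h0
      · obtain ⟨j, hj, hjd⟩ := (hprime.dvd_finset_prod_iff _).1 h0
        exact hGG i j (Finset.ne_of_mem_erase hj).symm (hprime.dvd_of_dvd_pow hjd)
      · exact hGU i (hprime.dvd_of_dvd_pow h0)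
    have hl := local_gen (gi i) hQ hQ₁ hc ha hw hd
    have n1 : Nn (G i) (C (c * a) * ((∏ j ∈ Finset.univ.erase i, G j ^ e j) * U ^ f)) =
        (c * a * ((∏ j ∈ Finset.univ.erase i, y i j ^ e j) * x i ^ f)) ^ M := by
      rw [nn_mul (gm i), nn_C (gm i), nn_mul (gm i), nn_pow (gm i), nn_prod (gm i), gd, gu,
        mul_pow (c * a), mul_pow (∏ j ∈ _, y i j ^ e j), ← Finset.prod_pow, pow_right_comm (x i)]
      congr 2
      exact Finset.prod_congr rfl fun j _ => by rw [nn_pow (gm i), gg, pow_right_comm]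
    have n2 : Nn (G i) (((∏ j ∈ Finset.univ.erase i, G j) * U) ^ e i) =
        (((∏ j ∈ Finset.univ.erase i, y i j) * x i) ^ e i) ^ M := by
      rw [nn_pow (gm i), nn_mul (gm i), nn_prod (gm i), gu, pow_right_comm, mul_pow (∏ j ∈ _, y i j),
        ← Finset.prod_pow]
      congr 2
      exact Finset.prod_congr rfl fun j _ => gg i j
    have z1 : c * a * ((∏ j ∈ Finset.univ.erase i, y i j ^ e j) * x i ^ f) ≠ 0 :=
      mul_ne_zero hca (mul_ne_zero (hyp i e) (pow_ne_zero _ (hx i)))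
    have z2 : ((∏ j ∈ Finset.univ.erase i, y i j) * x i) ^ e i ≠ 0 :=
      pow_ne_zero _ (mul_ne_zero (hyp1 i) (hx i))
    have hcl := cls_of_dvd (gm i) hp.pos (by rw [n1]; exact pow_ne_zero _ z1)
      (by rw [n2]; exact pow_ne_zero _ z2) hl
    rw [n1, n2, cl_pow p z1, cl_pow p z2] at hcl
    have hcl2 := drop hV hM hcl
    rw [cl_mul p hca (mul_ne_zero (hyp i e) (pow_ne_zero _ (hx i))),
      cl_mul p (hyp i e) (pow_ne_zero _ (hx i)), clyp, cl_pow p (hx i),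
      cl_pow p (mul_ne_zero (hyp1 i) (hx i)), cl_mul p (hyp1 i) (hx i), clyp1] at hcl2
    exact hcl2
  have hug : ∀ i, Nn U (G i) ≠ 0 ∧ cl p (Nn U (G i)) = cl p (x i) ^ M := by
    intro i
    rw [nn_symm, gu]
    exact ⟨mul_ne_zero (pow_ne_zero _ (neg_ne_zero.2 one_ne_zero)) (pow_ne_zero _ (hx i)), by
      rw [cl_sign hneg _ (pow_ne_zero _ (hx i)), cl_pow p (hx i)]⟩
  have h2 : cl p (c * a) ^ d * ∏ j, cl p (x j) ^ e j = (∏ j, cl p (x j)) ^ f := by
    obtain ⟨e', w, hw, hd⟩ := h U um ui (dvd_mul_left _ _)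
    rw [mul_comm (∏ i, G i ^ e i), mul_comm (∏ i, G i)] at hd
    have hprime := ui.prime
    have hQ : ¬ U ∣ ∏ j, G j := by
      intro hd
      obtain ⟨j, hj, hjd⟩ := (hprime.dvd_finset_prod_iff _).1 hd
      exact hUG j hjd
    have hQ₁ : ¬ U ∣ ∏ j, G j ^ e j := by
      intro hd
      obtain ⟨j, hj, hjd⟩ := (hprime.dvd_finset_prod_iff _).1 hd
      exact hUG j (hprime.dvd_of_dvd_pow hjd)
    have hl := local_gen ui hQ hQ₁ hc ha hw hd
    have n1 : Nn U (C (c * a) * ∏ j, G j ^ e j) = (c * a) ^ (d * M) * ∏ j, Nn U (G j) ^ e j := by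
      rw [nn_mul um, nn_C um, nn_prod um, ud]
      congr 1
      exact Finset.prod_congr rfl fun j _ => nn_pow um _ _
    have n2 : Nn U ((∏ j, G j) ^ f) = (∏ j, Nn U (G j)) ^ f := by
      rw [nn_pow um, nn_prod um]
    have z1 : ∏ j, Nn U (G j) ^ e j ≠ 0 :=
      Finset.prod_ne_zero_iff.2 fun j _ => pow_ne_zero _ (hug j).1
    have z2 : ∏ j, Nn U (G j) ≠ 0 := Finset.prod_ne_zero_iff.2 fun j _ => (hug j).1
    have hcl := cls_of_dvd um hp.pos (by
      rw [n1]; exact mul_ne_zero (pow_ne_zero _ hca) z1) (by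
      rw [n2]; exact pow_ne_zero _ z2) hl
    rw [n1, n2, cl_mul p (pow_ne_zero _ hca) z1, cl_pow p hca, cl_pow p z2,
      cl_prod p _ _ fun j _ => pow_ne_zero _ (hug j).1, cl_prod p _ _ fun j _ => (hug j).1] at hcl
    refine drop hV hM ?_
    rw [mul_pow, ← pow_mul, ← Finset.prod_pow]
    calc _ = cl p (c * a) ^ (d * M) * ∏ j, cl p (Nn U (G j) ^ e j) := by
          congr 1
          exact Finset.prod_congr rfl fun j _ => by
            rw [cl_pow p (hug j).1, (hug j).2, pow_right_comm]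
      _ = _ := by
          rw [hcl, pow_right_comm, ← Finset.prod_pow Finset.univ M (fun j => cl p (x j))]
          congr 1
          exact Finset.prod_congr rfl fun j _ => (hug j).2
  have hk := kappa_one hV hys hcop h1 h2
  intro i
  have h3 := h1 i
  rw [hk, one_mul] at h3
  refine exp_cong hp hV i h3 fun ε h0 => ?_
  rw [← clyp, ← cl_mul p (hx i) (hyp i ε)] at h0
  obtain ⟨z, hz⟩ := (cl_eq_one p (mul_ne_zero (hx i) (hyp i ε))).1 h0
  exact tR i ε z hz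

theorem pw_field {K : Type} [Field K] {p f : ℕ} (hp : 0 < p) {γ ω T g u x : K} (hγ : γ ≠ 0)
    (hT : T ≠ 0) (h1 : γ ^ p * (x * u ^ f) = ω ^ p) (h3 : g * u = T ^ p) :
    x * g ^ ((p - 1) * f) = (ω * γ⁻¹ * g ^ f * (T ^ f)⁻¹) ^ p := by
  have h4 : (T ^ f) ^ p = (g * u) ^ f := by rw [← pow_mul, mul_comm f p, pow_mul, h3]
  rw [mul_pow, mul_pow, mul_pow, inv_pow, inv_pow, ← h1, h4]
  have h5 : (g * u) ^ f ≠ 0 := by rw [← h4]; exact pow_ne_zero _ (pow_ne_zero _ hT)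
  have h6 : γ ^ p ≠ 0 := pow_ne_zero _ hγ
  obtain ⟨r, rfl⟩ : ∃ r, p = r + 1 := ⟨p - 1, by omega⟩
  rw [Nat.add_sub_cancel]
  rw [eq_mul_inv_iff_mul_eq₀ h5]
  calc x * g ^ (r * f) * (g * u) ^ f = x * u ^ f * (g ^ f) ^ (r + 1) := by ring
    _ = γ ^ (r + 1) * (γ ^ (r + 1))⁻¹ * (x * u ^ f) * (g ^ f) ^ (r + 1) := by
        rw [mul_inv_cancel₀ h6, one_mul]
    _ = _ := by ring

theorem step_gen {p q s m n : ℕ} (hp : p.Prime) (hq : q = p ^ (s + 1)) (hm : p.Coprime m)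
    {G : Fin n → E[X]} {U B H : E[X]} (gm : ∀ i, (G i).Monic) (um : U.Monic) (Hm : H.Monic)
    (Hi : Irreducible H) (Hd : H.natDegree = m) (hGB : ∀ i, IsCoprime (G i) B)
    (hUB : IsCoprime U B) (hHB : ¬ H ∣ B) (hid : (∏ i, G i) * U + B ^ q = H)
    (hneg : ∃ y : E, y ^ p = -1)
    (tS : ∀ ε : Fin n → ℕ, (∃ w : E[X], H ∣ ∏ i, G i ^ ε i - w ^ p) → ∀ i, p ∣ ε i)
    {e : Fin n → ℕ} {f : ℕ} {c a : E} (hc : c ≠ 0) (ha : a ≠ 0) {w : E[X]}
    (h : H ∣ C c * (C a * ((∏ i, G i ^ e i) * U ^ f)) - w ^ p) :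
    ∀ i, e i ≡ f [MOD p] := by
  have hneg' : cl p (-1 : E) = 1 := (cl_eq_one p (neg_ne_zero.2 one_ne_zero)).2 hneg
  have hca : c * a ≠ 0 := mul_ne_zero hc ha
  have key : ∀ P : E[X], P.Monic → P ∣ (∏ i, G i) * U → IsCoprime P B →
      Nn H P ≠ 0 ∧ cl p (Nn H P) = 1 := by
    intro P hP hPd hPB
    have h1 : Nn P H = (Nn P B ^ p ^ s) ^ p := by
      rw [← pow_mul, ← pow_succ, ← hq, ← nn_pow hP]
      refine nn_congr hP ?_
      rw [← hid, add_sub_cancel_right]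
      exact hPd
    have h2 : Nn P B ^ p ^ s ≠ 0 := pow_ne_zero _ (nn_ne_zero hP hPB)
    have h3 : Nn P H ≠ 0 := by rw [h1]; exact pow_ne_zero _ h2
    rw [nn_symm]
    refine ⟨mul_ne_zero (pow_ne_zero _ (neg_ne_zero.2 one_ne_zero)) h3, ?_⟩
    rw [cl_sign hneg' _ h3, h1, cl_ppow p h2]
  have kG := fun i => key (G i) (gm i)
    (Dvd.dvd.mul_right (Finset.dvd_prod_of_mem _ (Finset.mem_univ i)) _) (hGB i)
  have kU := key U um (dvd_mul_left _ _) hUB
  have z1 : ∏ j, Nn H (G j) ^ e j ≠ 0 :=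
    Finset.prod_ne_zero_iff.2 fun j _ => pow_ne_zero _ (kG j).1
  have e0 : C c * (C a * ((∏ i, G i ^ e i) * U ^ f)) = C (c * a) * ((∏ i, G i ^ e i) * U ^ f) := by
    rw [C_mul]; ring
  rw [e0] at h
  have n1 : Nn H (C (c * a) * ((∏ i, G i ^ e i) * U ^ f)) =
      (c * a) ^ m * ((∏ j, Nn H (G j) ^ e j) * Nn H U ^ f) := by
    rw [nn_mul Hm, nn_C Hm, nn_mul Hm, nn_pow Hm, nn_prod Hm, Hd]
    congr 2
    exact Finset.prod_congr rfl fun j _ => nn_pow Hm _ _
  have hcl := cls_of_dvd (B := 1) (w := w) Hm hp.pos (by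
    rw [n1]
    exact mul_ne_zero (pow_ne_zero _ hca) (mul_ne_zero z1 (pow_ne_zero _ kU.1))) (by
    rw [← C_1, nn_C Hm, one_pow]; exact one_ne_zero) (by rwa [one_mul])
  rw [n1, ← C_1, nn_C Hm, one_pow, cl_one, cl_mul p (pow_ne_zero _ hca)
    (mul_ne_zero z1 (pow_ne_zero _ kU.1)), cl_mul p z1 (pow_ne_zero _ kU.1), cl_pow p hca,
    cl_pow p kU.1, kU.2, one_pow, mul_one, cl_prod p _ _ fun j _ => pow_ne_zero _ (kG j).1,
    Finset.prod_eq_one (fun j _ => by rw [cl_pow p (kG j).1, (kG j).2, one_pow]), mul_one] at hcl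
  have hk := one_of_cop (VG_pow p _) hm hcl
  obtain ⟨y₀, hy₀⟩ := (cl_eq_one p hca).1 hk
  obtain ⟨y, hy⟩ := hneg
  have hy₀0 : y₀ ≠ 0 := by
    rintro rfl
    rw [zero_pow hp.ne_zero] at hy₀
    exact hca hy₀.symm
  have hy0 : y ≠ 0 := by
    rintro rfl
    rw [zero_pow hp.ne_zero] at hy
    exact neg_ne_zero.2 one_ne_zero hy.symm
  haveI : Fact (Irreducible H) := ⟨Hi⟩
  have hS : ∃ w : E[X], H ∣ ∏ i, G i ^ (e i + (p - 1) * f) - w ^ p := by
    have a1 : AdjoinRoot.mk H (C (c * a)) * (AdjoinRoot.mk H (∏ i, G i ^ e i) *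
        AdjoinRoot.mk H U ^ f) = AdjoinRoot.mk H w ^ p := by
      rw [← map_pow, ← map_mul, ← map_mul, ← map_pow]
      exact AdjoinRoot.mk_eq_mk.2 h
    have a2 : AdjoinRoot.mk H (C (c * a)) = AdjoinRoot.mk H (C y₀) ^ p := by
      rw [← map_pow, ← C_pow, hy₀]
    have a3 : AdjoinRoot.mk H (∏ i, G i) * AdjoinRoot.mk H U =
        (AdjoinRoot.mk H (C y) * AdjoinRoot.mk H B ^ p ^ s) ^ p := by
      have b1 : AdjoinRoot.mk H ((∏ i, G i) * U + B ^ q) = 0 := by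
        rw [hid]; exact AdjoinRoot.mk_self
      rw [map_add, map_mul, map_pow] at b1
      rw [eq_neg_of_add_eq_zero_left b1, mul_pow, ← pow_mul, ← pow_succ, ← hq,
        ← map_pow (AdjoinRoot.mk H) (C y) p, ← C_pow, hy, C_neg, C_1, map_neg, map_one, neg_one_mul]
    have b2 : AdjoinRoot.mk H B ≠ 0 := fun h0 => hHB (AdjoinRoot.mk_eq_zero.1 h0)
    have b3 : ∀ z : E, z ≠ 0 → AdjoinRoot.mk H (C z) ≠ 0 := by
      intro z hz h0
      exact Hi.not_isUnit (isUnit_of_dvd_unit (AdjoinRoot.mk_eq_zero.1 h0)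
        (isUnit_C.2 (isUnit_iff_ne_zero.2 hz)))
    have b4 : AdjoinRoot.mk H (C y) * AdjoinRoot.mk H B ^ p ^ s ≠ 0 :=
      mul_ne_zero (b3 y hy0) (pow_ne_zero _ b2)
    have a4 : AdjoinRoot.mk H (∏ i, G i ^ (e i + (p - 1) * f)) =
        AdjoinRoot.mk H (∏ i, G i ^ e i) * AdjoinRoot.mk H (∏ i, G i) ^ ((p - 1) * f) := by
      simp only [pow_add, Finset.prod_mul_distrib, map_mul, Finset.prod_pow, map_pow]
    rw [a2] at a1
    have a5 := pw_field hp.pos (b3 y₀ hy₀0) b4 a1 a3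
    rw [← a4] at a5
    obtain ⟨w', hw'⟩ := AdjoinRoot.mk_surjective (g := H) (AdjoinRoot.mk H w *
      (AdjoinRoot.mk H (C y₀))⁻¹ * AdjoinRoot.mk H (∏ i, G i) ^ f *
      ((AdjoinRoot.mk H (C y) * AdjoinRoot.mk H B ^ p ^ s) ^ f)⁻¹)
    refine ⟨w', ?_⟩
    rw [← hw', ← map_pow] at a5
    exact AdjoinRoot.mk_eq_mk.1 a5
  have hS2 := tS _ hS
  intro i
  have h3 := hS2 i
  have h4 : e i + (p - 1) * f ≡ f + (p - 1) * f [MOD p] := by
    have h5 : p ∣ f + (p - 1) * f := by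
      refine ⟨f, ?_⟩
      obtain ⟨r, rfl⟩ : ∃ r, p = r + 1 := ⟨p - 1, by have := hp.pos; omega⟩
      rw [Nat.add_sub_cancel]; ring
    exact ((Nat.modEq_zero_iff_dvd).2 h3).trans ((Nat.modEq_zero_iff_dvd).2 h5).symm
  exact Nat.ModEq.add_right_cancel' _ h4

end data

section fin

variable {E : Type} [Field E]

/-- The conditions, for abstract factors. -/
theorem cond_abs [PerfectField E] {p q s M n d l : ℕ} (hp : p.Prime) (hq : q = p ^ (s + 1))
    (hM : p.Coprime M) (hM0 : 0 < M) (hcop : p.Coprime (n + d)) {G : Fin n → E[X]} {U B H : E[X]}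
    {κ : E} (hκ : κ ≠ 0) (gm : ∀ i, (G i).Monic) (um : U.Monic) (Hm : H.Monic)
    (gi : ∀ i, Irreducible (G i)) (ui : Irreducible U) (Hi : Irreducible H)
    (gd : ∀ i, (G i).natDegree = M) (ud : U.natDegree = d * M) (Hd : H.natDegree = (n + d) * M)
    (hn : 0 < n) (hd : 2 ≤ d) (hGG : ∀ i j, i ≠ j → ¬ G i ∣ G j)
    (hB : q * B.natDegree < (n + d) * M)
    (hid : (∏ i, G i) * U + B ^ q = H) {x : Fin n → E} {y : Fin n → Fin n → E}
    (hx : ∀ i, x i ≠ 0) (hy : ∀ i j, i ≠ j → y i j ≠ 0) (hneg : ∃ z : E, z ^ p = -1)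
    (gu : ∀ i, Nn (G i) U = x i ^ M) (gg : ∀ i j, Nn (G i) (G j) = y i j ^ M)
    (ys : ∀ i j, y i j = - y j i)
    (tR : ∀ (i : Fin n) (ε : Fin n → ℕ) (z : E), z ^ p ≠ x i *
      ∏ j ∈ Finset.univ.erase i, y i j ^ ε j)
    (tS : ∀ ε : Fin n → ℕ, (∃ w : E[X], H ∣ ∏ i, G i ^ ε i - w ^ p) → ∀ i, p ∣ ε i) :
    Cond2 p q ((∏ i, G i) * U)
      ((B, κ) :: (List.replicate l (1 : E)).map fun a' => ((0 : E[X]), a')) := by
  have hp0 : 0 < p := hp.pos
  have hq0 : 0 < q := by rw [hq]; exact Nat.pow_pos hp0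
  have hneg' : cl p (-1 : E) = 1 := (cl_eq_one p (neg_ne_zero.2 one_ne_zero)).2 hneg
  have key := fun l₁ b' a l₂ h => split_list p hp0 B κ (List.replicate l (1 : E)) l₁ b' a l₂ h
  have hdM : 2 * M ≤ d * M := Nat.mul_le_mul hd le_rfl
  have hnM : 1 * M ≤ n * M := Nat.mul_le_mul hn le_rfl
  have hadd : (n + d) * M = n * M + d * M := add_mul _ _ _
  have hGU : ∀ i, ¬ G i ∣ U := fun i => ndvd_of_deg (gi i) ui (gm i) um (by rw [gd, ud]; omega)
  have hUG : ∀ i, ¬ U ∣ G i := fun i => ndvd_of_deg ui (gi i) um (gm i) (by rw [gd, ud]; omega)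
  have hGH : ∀ i, ¬ G i ∣ H := fun i => ndvd_of_deg (gi i) Hi (gm i) Hm (by rw [gd, Hd]; omega)
  have hUH : ¬ U ∣ H := ndvd_of_deg ui Hi um Hm (by rw [ud, Hd]; omega)
  have hcpB : ∀ P : E[X], Irreducible P → P ∣ (∏ i, G i) * U → ¬ P ∣ H → IsCoprime P B := by
    intro P hP hPd hPH
    rw [hP.coprime_iff_not_dvd]
    intro h
    refine hPH ?_
    rw [← hid]
    exact dvd_add hPd (h.trans (dvd_pow_self _ hq0.ne'))
  have hGd : ∀ i, G i ∣ (∏ i, G i) * U := fun i =>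
    Dvd.dvd.mul_right (Finset.dvd_prod_of_mem _ (Finset.mem_univ i)) _
  have hGB : ∀ i, IsCoprime (G i) B := fun i => hcpB _ (gi i) (hGd i) (hGH i)
  have hUB : IsCoprime U B := hcpB _ ui (dvd_mul_left _ _) hUH
  have hB0 : B ≠ 0 := by
    rintro rfl
    exact ui.not_isUnit (isCoprime_zero_right.1 hUB)
  have hHB : ¬ H ∣ B := by
    intro h
    have h1 := natDegree_le_of_dvd h hB0
    have h2 : 1 * B.natDegree ≤ q * B.natDegree := Nat.mul_le_mul hq0 le_rfl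
    omega
  have hgd : ((∏ i, G i) * U).natDegree = (n + d) * M := by
    rw [(monic_prod_of_monic _ _ fun i _ => gm i).natDegree_mul um,
      natDegree_prod_of_monic _ _ fun i _ => gm i, Finset.sum_congr rfl fun i _ => gd i,
      Finset.sum_const, Finset.card_univ, Fintype.card_fin, smul_eq_mul, ud, hadd]
  have hsep : ((∏ i, G i) * U).Separable := by
    refine Separable.mul (separable_prod' (fun i _ j _ hij => ?_)
      fun i _ => PerfectField.separable_of_irreducible (gi i))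
      (PerfectField.separable_of_irreducible ui) ?_
    · exact ((gi i).coprime_iff_not_dvd).2 (hGG i j hij)
    · exact IsCoprime.prod_left fun i _ => ((gi i).coprime_iff_not_dvd).2 (hGU i)
  refine
    { monic := (monic_prod_of_monic _ _ fun i _ => gm i).mul um
      sep := hsep
      cop := by rw [hgd]; exact hcop.mul_right hM
      redei := ?_
      ne := ?_
      deg := ?_
      cpr := ?_
      gsep := ?_
      step := ?_
      row := ?_ }
  · intro c A hc hA h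
    obtain ⟨a, e, f, ha, rfl⟩ := exps gi ui hA
    exact triv_exps ha (redei_gen hp hM hcop gm um gi ui gd ud hGG hGU hUG hx hy hneg' gu gg ys tR
      hc ha h)
  · intro l₁ b a₁ l₂ hl
    rcases (key l₁ b a₁ l₂ hl).1 with h | h
    · rwa [h]
    · rw [List.eq_of_mem_replicate h]; exact one_ne_zero
  · intro l₁ b' a₁ l₂ hl
    rw [hgd]
    rcases (key l₁ b' a₁ l₂ hl).2.1 with ⟨h, h'⟩ | h
    · rw [h, h', List.length_nil, pow_zero, mul_one]
      exact hB
    · rw [h, natDegree_zero, mul_zero]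
      exact Nat.mul_pos (by omega) hM0
  · intro l₁ b' a₁ l₂ hl
    rw [(key l₁ b' a₁ l₂ hl).2.2]
    exact IsCoprime.mul_left (IsCoprime.prod_left fun i _ => hGB i) hUB
  · intro l₁ b' a₁ l₂ hl
    rw [(key l₁ b' a₁ l₂ hl).2.2, hid]
    exact PerfectField.separable_of_irreducible Hi
  · intro l₁ b' a₁ l₂ hl c A w hc hA h
    rw [(key l₁ b' a₁ l₂ hl).2.2, hid] at h
    obtain ⟨a, e, f, ha, rfl⟩ := exps gi ui hA
    exact triv_exps ha (step_gen hp hq (hcop.mul_right hM) gm um Hm Hi Hd hGB hUB hHB hid hneg tS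
      hc ha h)
  · intro l₁ b' a₁ l₂ hl c A hc hA h
    rw [(key l₁ b' a₁ l₂ hl).2.2, hid] at hA ⊢
    exact triv_of_irr Hi hA

end fin

theorem st_cond : St_cond := by
  intro E _ _ p q s M n l ρ u b c hp hq hM hc D
  have hM0 : 0 < M := by
    rcases Nat.eq_zero_or_pos M with h | h
    · rw [h, Nat.coprime_zero_right] at hM
      exact absurd hM hp.one_lt.ne'
    · exact h
  have m1 : ∀ x : E, (expand E M (X - C x)).Monic := fun x => (monic_X_sub_C x).expand hM0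
  have d1 : ∀ x : E, (expand E M (X - C x)).natDegree = M := fun x => by
    rw [natDegree_expand, natDegree_X_sub_C, one_mul]
  have h00 := fun i => D.tR i (fun _ => 1) 0
  have hu0 : ∀ i, u.eval (ρ i) ≠ 0 := by
    intro i h0
    exact h00 i (by rw [zero_pow hp.ne_zero, h0, zero_mul])
  have hρ : ∀ i j, i ≠ j → ρ i - ρ j ≠ 0 := by
    intro i j hij h0
    refine h00 i ?_
    rw [zero_pow hp.ne_zero, Finset.prod_eq_zero (Finset.mem_erase.2 ⟨hij.symm, Finset.mem_univ j⟩)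
      (by rw [h0, pow_one]), mul_zero]
  have nn1 : ∀ i, Nn (expand E M (X - C (ρ i))) (expand E M u) = (u.eval (ρ i)) ^ M := by
    intro i
    have h1 : expand E M (X - C (ρ i)) ∣ expand E M u - C (u.eval (ρ i)) := by
      have h2 : (X - C (ρ i)) ∣ u - C (u.eval (ρ i)) := X_sub_C_dvd_sub_C_eval
      have h3 := map_dvd (expand E M) h2
      rwa [map_sub (expand E M) u, expand_C] at h3
    rw [nn_congr (m1 _) h1, nn_C (m1 _), d1]
  have nn2 : ∀ i j, Nn (expand E M (X - C (ρ i))) (expand E M (X - C (ρ j))) =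
      (ρ i - ρ j) ^ M := by
    intro i j
    have h1 : expand E M (X - C (ρ i)) ∣ expand E M (X - C (ρ j)) - C (ρ i - ρ j) := by
      have h2 : expand E M (X - C (ρ j)) - C (ρ i - ρ j) = expand E M (X - C (ρ i)) := by
        simp only [map_sub, expand_X, expand_C]; ring
      rw [h2]
    rw [nn_congr (m1 _) h1, nn_C (m1 _), d1]
  have fm : (∏ i, (X - C (ρ i)) : E[X]).Monic := monic_prod_of_monic _ _ fun i _ => monic_X_sub_C _
  have fd : (∏ i, (X - C (ρ i)) : E[X]).natDegree = n := by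
    rw [natDegree_prod_of_monic _ _ fun i _ => monic_X_sub_C (ρ i),
      Finset.sum_congr rfl fun i _ => natDegree_X_sub_C (ρ i), Finset.sum_const, Finset.card_univ,
      Fintype.card_fin, smul_eq_mul, mul_one]
  have gd : ((∏ i, (X - C (ρ i))) * u).natDegree = n + u.natDegree := by
    rw [fm.natDegree_mul D.um, fd]
  have hbd : (b ^ q).natDegree < ((∏ i, (X - C (ρ i))) * u).natDegree := by
    rw [gd]
    exact lt_of_le_of_lt natDegree_pow_le D.deg
  have hHm : ((∏ i, (X - C (ρ i))) * u + b ^ q).Monic :=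
    (fm.mul D.um).add_of_left (degree_lt_degree hbd)
  have hHd : ((∏ i, (X - C (ρ i))) * u + b ^ q).natDegree = n + u.natDegree := by
    rw [natDegree_add_eq_left_of_natDegree_lt hbd, gd]
  rw [map_mul, map_prod]
  refine cond_abs (d := u.natDegree) (H := expand E M ((∏ i, (X - C (ρ i))) * u + b ^ q))
    (x := fun i => u.eval (ρ i)) (y := fun i j => ρ i - ρ j) hp hq hM hM0 D.cop hc
    (fun i => m1 _) (D.um.expand hM0) (hHm.expand hM0) D.iρ D.iu D.ih (fun i => d1 _)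
    (natDegree_expand _ _) (by rw [natDegree_expand, hHd]) D.n0 D.ud ?_ ?_ ?_ hu0 hρ D.neg nn1 nn2
    (fun i j => by ring) D.tR D.tS
  · intro i j hij h
    have h1 : expand E M (X - C (ρ i)) ∣ C (ρ i - ρ j) := by
      have h2 : expand E M (X - C (ρ j)) - expand E M (X - C (ρ i)) = C (ρ i - ρ j) := by
        simp only [map_sub, expand_X, expand_C]; ring
      rw [← h2]
      exact dvd_sub h (dvd_refl _)
    exact (D.iρ i).not_isUnit (isUnit_of_dvd_unit h1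
      (isUnit_C.2 (isUnit_iff_ne_zero.2 (hρ i j hij))))
  · rw [natDegree_expand, ← mul_assoc]
    exact Nat.mul_lt_mul_of_pos_right D.deg hM0
  · simp only [map_add, map_mul, map_prod, map_pow]

end Pool.Agent.Y833.EN
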